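import Pool.Agent.R719.GA.Two

set_option autoImplicit false

/-! # The Atiyah conjecture for matrices with two terms per column or per row

Let `G` be any group and `A` an `m × n` matrix over the complex group ring of `G`.

(1) If each column of `A` contains at most two terms `c g` (`c ∈ ℂ` nonzero, `g ∈ G`; both may be in the
same entry), then `m - rk A` is a sum of at most `m` numbers `1 / |H|`, `H` a finite subgroup of `G`.
(2) If each row of `A` contains at most two terms, then `n - rk A` is a sum of at most `n` such numbers.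
(3) So in both cases `d rk A` is an integer, if the orders of the finite subgroups of `G` are bounded and
have the least common multiple `d`.

There is no condition on the coefficients. In `GridKernels` (helper472) it is shown, for coefficients of
modulus one, that at most two nonzero monomial entries per column are enough, and that the whole
conjecture would follow from the case of three terms in each row and column.

Outline. A column with the two terms `c g e_a`, `d h e_b` says `c x_a(g u) = - d x_b(h u)` for the
elements `x` of the kernel, so `|c| ‖x_a‖ = |d| ‖x_b‖`. Hence the norms of the components of finitely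
many suitable elements of the kernel provide weights `p_i` on the rows `i` on which not all elements of
the kernel vanish, with `|c| p_a = |d| p_b` for each such column; they turn the coefficients into
coefficients of modulus one. The other rows are removed by additional columns `e_k`. For the resulting
matrix `B` the matrix `B B*` is weakly diagonally dominant, and the kernel dimensions of such matrices
are known from `DominantMatrices`. -/

noncomputable section

namespace Pool.Agent.Results.MP_585e9a_al.TwoTermMatrices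

/-- The kernel of right multiplication by the matrix `A` on `ℓ²(G)^K`. -/
def kernel {G : Type} [Group G] {K L : Type} [Fintype K] (A : Matrix K L (MonoidAlgebra ℂ G)) :
    Set (lp (fun _ : K × G => ℂ) 2) :=
  {x | ∀ (j : L) (g : G), ∑ i : K, (A i j).coeff.sum (fun h c => x (i, g * h⁻¹) * c) = 0}

open Classical in
/-- The von Neumann dimension of this kernel: the sum over `i` of one minus the squared distance
from the basis vector at `(i, 1)` to the kernel, that is, the trace of the projection onto the
kernel. -/
def kerDim {G : Type} [Group G] {K L : Type} [Fintype K] (A : Matrix K L (MonoidAlgebra ℂ G)) : ℝ :=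
  ∑ i : K, (1 - (Metric.infDist
    (lp.single 2 (i, (1 : G)) (1 : ℂ) : lp (fun _ : K × G => ℂ) 2) (kernel A)) ^ 2)

/-- The von Neumann rank of a matrix with `m` rows: `m` minus the dimension of the kernel. -/
def rank {G : Type} [Group G] {m n : ℕ} (A : Matrix (Fin m) (Fin n) (MonoidAlgebra ℂ G)) : ℝ :=
  m - kerDim A

/-- The orders of the finite subgroups of `G` are bounded, and `d` is their least common
multiple. -/
def IsLcm (G : Type) [Group G] (d : ℕ) : Prop :=
  (∃ N : ℕ, ∀ H : Subgroup G, Finite H → Nat.card H ≤ N) ∧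
    (∀ H : Subgroup G, Finite H → Nat.card H ∣ d) ∧
    ∀ e : ℕ, (∀ H : Subgroup G, Finite H → Nat.card H ∣ e) → d ∣ e

/-- `r` is a sum of at most `n` numbers `1 / |H|`, with `H` a finite subgroup of `G`. -/
def IsSum (G : Type) [Group G] (n : ℕ) (r : ℝ) : Prop :=
  ∃ (s : ℕ) (H : Fin s → Subgroup G), s ≤ n ∧ (∀ i, Finite (H i)) ∧
    r = ∑ i, (Nat.card (H i) : ℝ)⁻¹

/-- The number of terms (nonzero coefficients) of a vector over the group ring. -/
def terms {G : Type} [Group G] {m : ℕ} (v : Fin m → MonoidAlgebra ℂ G) : ℕ :=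
  ∑ i, (v i).coeff.support.card

open Pool.Agent.R719.AT TH57.Thr.Ati Pool.Agent.R472.Grid

theorem kerDim_kap {G : Type} [Group G] {K L : Type} [Fintype K] [Fintype L] [i1 : DecidableEq K]
    [DecidableEq L] (A : Matrix K L (MonoidAlgebra ℂ G)) : kerDim A = kap A := by
  have h : i1 = fun a b => Classical.propDecidable (a = b) := Subsingleton.elim _ _
  rw [← kerC_dim A]
  subst h
  rfl

/-- A vector with at most two terms. -/
theorem two_terms {G : Type} [Group G] {m : ℕ} [NeZero m] (v : Fin m → MonoidAlgebra ℂ G)
    (hv : terms v ≤ 2) : ∃ (a b : Fin m) (g h : G) (c d : ℂ), ∀ i, v i =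
      (if a = i then MonoidAlgebra.single g c else 0) +
        (if b = i then MonoidAlgebra.single h d else 0) := by
  classical
  set T : Finset (Σ _ : Fin m, G) := Finset.univ.sigma fun i => (v i).coeff.support with hT
  have hcard : T.card ≤ 2 := by
    rw [hT, Finset.card_sigma]
    exact hv
  have hsum : ∀ i, v i = ∑ t ∈ T,
      (if t.1 = i then MonoidAlgebra.single t.2 ((v t.1).coeff t.2) else 0) := by
    intro i
    ext g
    rw [MonoidAlgebra.coeff_sum, Finsupp.finsetSum_apply]
    have h1 : ∀ t : (Σ _ : Fin m, G), ((if t.1 = i then MonoidAlgebra.single t.2 ((v t.1).coeff t.2)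
        else 0 : MonoidAlgebra ℂ G).coeff g) = if t = ⟨i, g⟩ then (v i).coeff g else 0 := by
      rintro ⟨k, h⟩
      by_cases hk : k = i
      · subst hk
        by_cases hh : h = g
        · subst hh
          simp
        · rw [if_pos rfl, MonoidAlgebra.coeff_single, Finsupp.single_apply, if_neg hh, if_neg]
          intro h3
          injection h3 with _ h4
          exact hh h4
      · rw [if_neg hk, if_neg]
        · rfl
        · intro h3
          injection h3 with h4 _
          exact hk h4
    rw [Finset.sum_congr rfl fun t _ => h1 t, Finset.sum_ite_eq']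
    split_ifs with h2
    · rfl
    · have h3 : g ∉ (v i).coeff.support := fun h4 =>
        h2 (by rw [hT]; exact Finset.mem_sigma.2 ⟨Finset.mem_univ _, h4⟩)
      exact Finsupp.notMem_support_iff.1 h3
  have hc : T.card = 0 ∨ T.card = 1 ∨ T.card = 2 := by omega
  rcases hc with h0 | h1 | h2
  · rw [Finset.card_eq_zero] at h0
    refine ⟨0, 0, 1, 1, 0, 0, fun i => ?_⟩
    rw [hsum i, h0]
    simp
  · obtain ⟨t, ht⟩ := Finset.card_eq_one.1 h1
    refine ⟨t.1, 0, t.2, 1, (v t.1).coeff t.2, 0, fun i => ?_⟩
    rw [hsum i, ht]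
    simp
  · obtain ⟨t, t', htt, ht⟩ := Finset.card_eq_two.1 h2
    refine ⟨t.1, t'.1, t.2, t'.2, (v t.1).coeff t.2, (v t'.1).coeff t'.2, fun i => ?_⟩
    rw [hsum i, ht, Finset.sum_pair htt]

theorem cols {G : Type} [Group G] {m n : ℕ} (A : Matrix (Fin m) (Fin n) (MonoidAlgebra ℂ G))
    (h : ∀ j, terms (fun i => A i j) ≤ 2) :
    ∃ (s : ℕ) (H : Fin s → Subgroup G), s ≤ m ∧ (∀ i, Finite (H i)) ∧
      kap A = ∑ i, (Nat.card (H i) : ℝ)⁻¹ := by
  rcases Nat.eq_zero_or_pos m with rfl | hm
  · obtain ⟨s, H, hs, hH, hk⟩ := kap_two_cols A (fun j => by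
      rw [Set.eq_empty_of_isEmpty {i | A i j ≠ 0}]; simp) (fun i => i.elim0)
    rw [Fintype.card_fin] at hs
    exact ⟨s, H, hs, hH, hk⟩
  · have : NeZero m := ⟨hm.ne'⟩
    obtain ⟨s, H, hs, hH, hk⟩ := Pool.Agent.R719.GA.kap_two_terms A
      (fun j => two_terms (fun i => A i j) (h j))
    rw [Fintype.card_fin] at hs
    exact ⟨s, H, hs, hH, hk⟩

theorem card_st {G : Type} [Group G] (x : MonoidAlgebra ℂ G) :
    (st x).coeff.support.card = x.coeff.support.card := by
  classical
  refine Finset.card_bij (fun g _ => g⁻¹) ?_ ?_ ?_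
  · intro g hg
    rw [Finsupp.mem_support_iff, st_coeff] at hg
    rw [Finsupp.mem_support_iff]
    intro h0
    rw [h0, map_zero] at hg
    exact hg rfl
  · intro g _ h _ hgh
    exact inv_injective hgh
  · intro g hg
    refine ⟨g⁻¹, ?_, inv_inv g⟩
    rw [Finsupp.mem_support_iff] at hg ⊢
    rw [st_coeff, inv_inv]
    exact fun h0 => hg ((map_eq_zero _).1 h0)

/-- **Two terms per column or per row.** -/
theorem result (G : Type) [Group G] (m n : ℕ) (A : Matrix (Fin m) (Fin n) (MonoidAlgebra ℂ G)) :
    ((∀ j, terms (fun i => A i j) ≤ 2) → IsSum G m (m - rank A)) ∧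
    ((∀ i, terms (fun j => A i j) ≤ 2) → IsSum G n (n - rank A)) ∧
    (((∀ j, terms (fun i => A i j) ≤ 2) ∨ (∀ i, terms (fun j => A i j) ≤ 2)) →
      ∀ d : ℕ, IsLcm G d → ∃ z : ℤ, (d : ℝ) * rank A = z) := by
  classical
  have p1 : (∀ j, terms (fun i => A i j) ≤ 2) → IsSum G m (m - rank A) := by
    intro h
    obtain ⟨s, H, hs, hH, hk⟩ := cols A h
    exact ⟨s, H, hs, hH, by rw [rank, kerDim_kap, hk]; ring⟩
  have p2 : (∀ i, terms (fun j => A i j) ≤ 2) → IsSum G n (n - rank A) := by
    intro h
    obtain ⟨s, H, hs, hH, hk⟩ := cols (sta A) (fun i => by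
      refine le_trans (le_of_eq ?_) (h i)
      exact Finset.sum_congr rfl fun j _ => card_st (A i j))
    have h1 := kap_sta_rect A
    rw [Fintype.card_fin, Fintype.card_fin] at h1
    exact ⟨s, H, hs, hH, by rw [rank, kerDim_kap, ← hk]; linarith⟩
  have hint : ∀ (k : ℕ) (r : ℝ), IsSum G k (k - r) → ∀ d : ℕ, IsLcm G d →
      ∃ z : ℤ, (d : ℝ) * r = z := by
    rintro k r ⟨s, H, -, hH, hr⟩ d hd
    have h1 : ∀ i, ∃ z : ℤ, (d : ℝ) * (Nat.card (H i) : ℝ)⁻¹ = z := by
      intro i
      obtain ⟨q, hq⟩ := hd.2.1 (H i) (hH i)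
      have := hH i
      have hpos : (Nat.card (H i) : ℝ) ≠ 0 := by exact_mod_cast Nat.card_pos.ne'
      refine ⟨q, ?_⟩
      rw [hq]
      push_cast
      field_simp
    choose z hz using h1
    have h2 : (d : ℝ) * ((k : ℝ) - r) = ∑ i, (z i : ℝ) := by
      rw [hr, Finset.mul_sum, Finset.sum_congr rfl fun i _ => hz i]
    refine ⟨d * k - ∑ i, z i, ?_⟩
    push_cast
    rw [← h2]
    ring
  refine ⟨p1, p2, ?_⟩
  rintro (h | h) d hd
  · exact hint m _ (p1 h) d hd
  · exact hint n _ (p2 h) d hd

end Pool.Agent.Results.MP_585e9a_al.TwoTermMatrices
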